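import Pool.Agent.Lib_MP_008adc_n.PPs
import Pool.Agent.Lib_MP_008adc_c3.B1
import Pool.Agent.Lib_MP_008adc_c3.MinSum

/-!
# The core estimate (B5, B6)
-/

set_option autoImplicit false

namespace HadC

open Finset HadLLL

/-- odd numbers below `2 ^ b0` -/
def XO (b0 : ℕ) : Finset ℕ := (range (2 ^ b0)).filter (fun x => x % 2 = 1)

theorem mem_XO {b0 x : ℕ} : x ∈ XO b0 ↔ x < 2 ^ b0 ∧ x % 2 = 1 := by
  rw [XO, mem_filter, mem_range]

theorem card_XO {b0 : ℕ} (h : 1 ≤ b0) : (XO b0).card = 2 ^ (b0 - 1) := by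
  have e : XO b0 = (range (2 ^ (b0 - 1))).image (fun x => 2 * x + 1) := by
    have e2 : 2 ^ b0 = 2 * 2 ^ (b0 - 1) := by
      rw [← pow_succ']
      congr 1
      omega
    ext x
    rw [mem_XO, mem_image]
    constructor
    · intro hx
      refine ⟨x / 2, ?_, by omega⟩
      rw [mem_range]
      omega
    · rintro ⟨a, ha, rfl⟩
      rw [mem_range] at ha
      omega
  rw [e, card_image_of_injective _ (fun a b hab => by
    have : 2 * a + 1 = 2 * b + 1 := hab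
    omega), card_range]

variable {b g y K b0 : ℕ} {P : ℕ → Finset ℕ}

theorem coprime_xu (H : PD b g y K P) (hb0g : b0 ≤ b - g) {x : ℕ} (hx : x ∈ XO b0)
    {m l u : ℕ} (hu : u ∈ PP P m l) : Nat.Coprime x u := by
  rw [mem_XO] at hx
  rw [Nat.coprime_iff_gcd_eq_one]
  by_contra hne
  obtain ⟨p, hp, hpd⟩ := Nat.exists_prime_and_dvd hne
  have h1 : p ∣ x := hpd.trans (Nat.gcd_dvd_left _ _)
  have h2 : p ∣ u := hpd.trans (Nat.gcd_dvd_right _ _)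
  obtain ⟨j, _, _, h4⟩ := PP_prime H hu hp h2
  have h5 := H.hge j p h4
  have h6 : 0 < x := by
    rcases Nat.eq_zero_or_pos x with h7 | h7
    · rw [h7] at hx
      omega
    · exact h7
  have h7 := Nat.le_of_dvd h6 h1
  have h8 : 2 ^ b0 ≤ 2 ^ (b - g) := Nat.pow_le_pow_right (by norm_num) hb0g
  omega

theorem xu_inj (H : PD b g y K P) (hb0g : b0 ≤ b - g) (m l : ℕ) :
    Set.InjOn (fun x : ℕ × ℕ => x.1 * x.2) (XO b0 ×ˢ PP P m l : Finset (ℕ × ℕ)) := by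
  rintro ⟨x, u⟩ h ⟨x', u'⟩ h' he
  rw [mem_coe, mem_product] at h h'
  have he' : x * u = x' * u' := he
  have h1 : u ∣ x' * u' := ⟨x, by rw [← he']; ring⟩
  have h2 : u ∣ u' := (coprime_xu H hb0g h'.1 h.2).symm.dvd_of_dvd_mul_left h1
  have h3 : u' ∣ x * u := ⟨x', by rw [he']; ring⟩
  have h4 : u' ∣ u := (coprime_xu H hb0g h.1 h'.2).symm.dvd_of_dvd_mul_left h3
  have h5 : u = u' := Nat.dvd_antisymm h2 h4
  rw [← h5] at he'
  have h6 : x = x' := Nat.eq_of_mul_eq_mul_right (PP_pos H h.2) he'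
  rw [h5, h6]

/-- the products of `x` and `k` primes -/
def UU (b0 : ℕ) (P : ℕ → Finset ℕ) (k : ℕ) : Finset ℕ :=
  (XO b0 ×ˢ PP P 0 k).image (fun x => x.1 * x.2)

theorem sum_UU (H : PD b g y K P) (hb0g : b0 ≤ b - g) (k : ℕ) {M : Type} [AddCommMonoid M]
    (F : ℕ → M) : ∑ n ∈ UU b0 P k, F n = ∑ x ∈ XO b0, ∑ u ∈ PP P 0 k, F (x * u) := by
  rw [UU, sum_image (xu_inj H hb0g 0 k), sum_product]

theorem card_UU (H : PD b g y K P) (hb0g : b0 ≤ b - g) (k : ℕ) :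
    (UU b0 P k).card = (XO b0).card * (PP P 0 k).card := by
  rw [UU, card_image_of_injOn (xu_inj H hb0g 0 k), card_product]

theorem UU_lt (H : PD b g y K P) {k n : ℕ} (hn : n ∈ UU b0 P k) : n < 2 ^ b0 * y ^ k := by
  rw [UU, mem_image] at hn
  obtain ⟨x, hx, rfl⟩ := hn
  rw [mem_product, mem_XO] at hx
  calc x.1 * x.2 < 2 ^ b0 * x.2 := Nat.mul_lt_mul_of_pos_right hx.1.1 (PP_pos H hx.2)
    _ ≤ 2 ^ b0 * y ^ k := Nat.mul_le_mul_left _ (PP_le H hx.2)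

/-- the exponential sum -/
noncomputable def SS (b0 : ℕ) (P : ℕ → Finset ℕ) (K : ℕ) (α : ℝ) : ℂ :=
  ∑ x ∈ XO b0, ∑ t ∈ PP P 0 K, eR (α * ((x * t : ℕ) : ℝ))

theorem SS_split (H : PD b g y K P) (hb0g : b0 ≤ b - g) {k : ℕ} (hk : 2 * k ≤ K) (α : ℝ) :
    SS b0 P K α = ∑ w ∈ PP P (2 * k) (K - 2 * k), ∑ n ∈ UU b0 P k, ∑ v ∈ PP P k k,
      eR ((α * w) * n * v) := by
  have h1 : ∀ x : ℕ, ∑ t ∈ PP P 0 K, eR (α * ((x * t : ℕ) : ℝ)) =
      ∑ w ∈ PP P (2 * k) (K - 2 * k), ∑ u ∈ PP P 0 k, ∑ v ∈ PP P k k,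
        eR ((α * w) * ((x * u : ℕ) : ℝ) * v) := by
    intro x
    have e1 : PP P 0 K = PP P 0 (2 * k + (K - 2 * k)) := by
      congr 1
      omega
    rw [e1, sum_PP_add H 0 (2 * k) (K - 2 * k), zero_add, two_mul, sum_PP_add H 0 k k, zero_add]
    calc _ = ∑ u ∈ PP P 0 k, ∑ w ∈ PP P (k + k) (K - (k + k)), ∑ v ∈ PP P k k,
          eR ((α * w) * ((x * u : ℕ) : ℝ) * v) := by
          refine sum_congr rfl fun u _ => ?_
          rw [sum_comm]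
          refine sum_congr rfl fun w _ => sum_congr rfl fun v _ => ?_
          congr 1
          push_cast
          ring
      _ = _ := sum_comm
  unfold SS
  rw [sum_congr rfl (fun x _ => h1 x), sum_comm]
  refine sum_congr rfl fun w _ => ?_
  rw [sum_UU H hb0g]

/-- the sum over `r` for one `w` -/
theorem minsum_w (H : PD b g y K P) {k : ℕ} (hk : 1 ≤ k) (h2k : 2 * k ≤ K) {a : ℤ} {q : ℕ}
    (hq : 1 ≤ q) (hco : IsCoprime a (q : ℤ)) {α β : ℝ} (hα : α = a / q + β)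
    (hβ : 4 * (q * |β| * (2 ^ b0 * (y : ℝ) ^ K)) ≤ 2 ^ b0 * (y : ℝ) ^ k)
    {Λ : ℝ} (hΛ1 : 1 + Real.log ((y : ℝ) ^ k) ≤ Λ) (hΛ2 : 1 + Real.log q ≤ Λ) {w : ℕ}
    (hw : w ∈ PP P (2 * k) (K - 2 * k)) :
    ∑ r ∈ Ioo (-((y ^ k : ℕ) : ℤ)) ((y ^ k : ℕ) : ℤ),
        G ((2 ^ b0 * y ^ k : ℕ) : ℝ) ((α * w) * (r : ℝ)) ≤
      2 ^ b0 * (y : ℝ) ^ k + 3 * Λ * ((y : ℝ) ^ k + q) +
        12 * Λ * ((2 ^ b0 * (y : ℝ) ^ k * (y : ℝ) ^ k) * (Nat.gcd q w : ℝ) /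
          (q * (1 + |β| * (2 ^ b0 * (y : ℝ) ^ K)))) := by
  have hw0 : 0 < w := PP_pos H hw
  have hy1 : 1 ≤ y := by
    have h1 := H.hy2
    have h2 : 0 < 2 ^ (b - g) := by positivity
    nlinarith [H.hK]
  have hyR : (1 : ℝ) ≤ y := by exact_mod_cast hy1
  have hY : (1 : ℝ) ≤ (y : ℝ) ^ k := one_le_pow₀ hyR
  have hqR : (1 : ℝ) ≤ q := by exact_mod_cast hq
  have hwR : (0 : ℝ) < w := by exact_mod_cast hw0
  have hΛ0 : 1 ≤ Λ := by
    have := Real.log_nonneg hqR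
    linarith
  -- the gcd
  obtain ⟨d, hd⟩ : ∃ d, d = Nat.gcd q w := ⟨_, rfl⟩
  have hd0 : 0 < d := by
    rw [hd]
    exact Nat.gcd_pos_of_pos_left _ hq
  obtain ⟨q', hq'⟩ : d ∣ q := by rw [hd]; exact Nat.gcd_dvd_left _ _
  obtain ⟨w', hw'⟩ : d ∣ w := by rw [hd]; exact Nat.gcd_dvd_right _ _
  have hq'0 : 0 < q' := by
    rcases Nat.eq_zero_or_pos q' with h1 | h1
    · rw [h1, mul_zero] at hq'
      omega
    · exact h1
  have hcop : Nat.Coprime q' w' := by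
    have h1 : Nat.gcd q w = d * Nat.gcd q' w' := by
      rw [hq', hw', Nat.gcd_mul_left]
    rw [← hd] at h1
    have h2 : d * Nat.gcd q' w' = d * 1 := by rw [mul_one]; exact h1.symm
    exact Nat.eq_of_mul_eq_mul_left hd0 h2
  have hdR : (0 : ℝ) < d := by exact_mod_cast hd0
  have hq'R : (1 : ℝ) ≤ q' := by exact_mod_cast hq'0
  have hqd : (q : ℝ) = d * q' := by rw [hq']; push_cast; ring
  have hwd : (w : ℝ) = d * w' := by rw [hw']; push_cast; ring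
  have hco' : IsCoprime (a * (w' : ℤ)) (q' : ℤ) := by
    have h1 : IsCoprime a (q' : ℤ) := by
      rw [hq'] at hco
      push_cast at hco
      exact hco.of_mul_right_right
    have h2 : IsCoprime (w' : ℤ) (q' : ℤ) := Nat.isCoprime_iff_coprime.2 hcop.symm
    exact h1.mul_left h2
  have hγ : α * w = ((a * (w' : ℤ) : ℤ) : ℝ) / q' + β * w := by
    rw [hα, hqd, hwd]
    push_cast
    field_simp
  -- sizes
  have hwle : (w : ℝ) ≤ (y : ℝ) ^ (K - 2 * k) := by exact_mod_cast PP_le H hw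
  have hwge : (y : ℝ) ^ (K - 2 * k) ≤ 3 * w := by
    exact_mod_cast PP_ge3 H (by omega : K - 2 * k ≤ K) hw
  have hyK : (y : ℝ) ^ K = (y : ℝ) ^ (K - 2 * k) * ((y : ℝ) ^ k * (y : ℝ) ^ k) := by
    rw [← pow_add, ← pow_add]
    congr 1
    omega
  have hβ0 : 0 ≤ |β| := abs_nonneg β
  have h2b : (0 : ℝ) < 2 ^ b0 := by positivity
  have hθ : |β * w| * q' * ((y ^ k : ℕ) : ℝ) ≤ 1 / 4 := by
    rw [abs_mul, abs_of_pos hwR]
    push_cast
    have h1 : |β| * w * q' * (y : ℝ) ^ k ≤ |β| * w * q * (y : ℝ) ^ k := by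
      have h2 : (q' : ℝ) ≤ q := by
        rw [hqd]
        have : (1 : ℝ) ≤ d := by exact_mod_cast hd0
        nlinarith
      gcongr
    have h2 : 4 * (|β| * w * q * (y : ℝ) ^ k) * (2 ^ b0 * (y : ℝ) ^ k) ≤
        1 * (2 ^ b0 * (y : ℝ) ^ k) := by
      have h3 : |β| * w * q * (y : ℝ) ^ k * (2 ^ b0 * (y : ℝ) ^ k) ≤
          q * |β| * (2 ^ b0 * (y : ℝ) ^ K) := by
        rw [hyK]
        calc |β| * w * q * (y : ℝ) ^ k * (2 ^ b0 * (y : ℝ) ^ k)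
            = (q * |β| * 2 ^ b0 * ((y : ℝ) ^ k * (y : ℝ) ^ k)) * w := by ring
          _ ≤ (q * |β| * 2 ^ b0 * ((y : ℝ) ^ k * (y : ℝ) ^ k)) * (y : ℝ) ^ (K - 2 * k) :=
              mul_le_mul_of_nonneg_left hwle (by positivity)
          _ = _ := by ring
      linarith
    have h4 : 4 * (|β| * w * q * (y : ℝ) ^ k) ≤ 1 := le_of_mul_le_mul_right h2 (by positivity)
    linarith
  have hY' : (((y ^ k : ℕ) : ℝ)) = (y : ℝ) ^ k := by push_cast; rfl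
  have hX1 : (((2 ^ b0 * y ^ k : ℕ) : ℝ)) = 2 ^ b0 * (y : ℝ) ^ k := by push_cast; rfl
  have key := MinSum.min_sum (α * w) (β * w) ((2 ^ b0 * y ^ k : ℕ) : ℝ) (a * (w' : ℤ)) q' (y ^ k)
    hq'0 hco' hγ hθ (Nat.cast_nonneg _)
    (fun r => G ((2 ^ b0 * y ^ k : ℕ) : ℝ) ((α * w) * (r : ℝ)))
    (fun r => G_le _ _) (fun r => by
      have h1 : 0 ≤ MinSum.nd (α * w * (r : ℝ)) := MinSum.nd_nonneg _
      rcases h1.eq_or_lt with h2 | h2
      · rw [← h2]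
        norm_num
      · have h3 := G_le' ((2 ^ b0 * y ^ k : ℕ) : ℝ) (α * w * (r : ℝ)) h2
        have h4 : G ((2 ^ b0 * y ^ k : ℕ) : ℝ) (α * w * (r : ℝ)) * (2 * nd (α * w * (r : ℝ))) ≤
            1 / (2 * nd (α * w * (r : ℝ))) * (2 * nd (α * w * (r : ℝ))) :=
          mul_le_mul_of_nonneg_right h3 (by
            have : 0 < nd (α * w * (r : ℝ)) := h2
            positivity)
        rw [one_div, inv_mul_cancel₀ (by
          have : 0 < nd (α * w * (r : ℝ)) := h2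
          positivity)] at h4
        exact h4)
  refine key.trans ?_
  rw [hY', hX1]
  have hlq : 1 + Real.log q' ≤ Λ := by
    have : Real.log q' ≤ Real.log q := Real.log_le_log (by linarith) (by
      rw [hqd]
      have : (1 : ℝ) ≤ d := by exact_mod_cast hd0
      nlinarith)
    linarith
  have hlq0 : 0 ≤ Real.log q' := Real.log_nonneg hq'R
  have hq'q : (q' : ℝ) ≤ q := by
    rw [hqd]
    have : (1 : ℝ) ≤ d := by exact_mod_cast hd0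
    nlinarith
  have hlY : 0 ≤ Real.log ((y : ℝ) ^ k) := Real.log_nonneg hY
  -- third term
  have t3 : 8 / 3 * ((y : ℝ) ^ k + q') * (1 + Real.log q') ≤ 3 * Λ * ((y : ℝ) ^ k + q) := by
    calc 8 / 3 * ((y : ℝ) ^ k + q') * (1 + Real.log q') ≤ 3 * ((y : ℝ) ^ k + q) * Λ := by
          gcongr
          norm_num
      _ = _ := by ring
  -- second term
  have hden : 0 < (q : ℝ) * (1 + |β| * (2 ^ b0 * (y : ℝ) ^ K)) := by positivity
  have t2 : (2 ^ b0 * (y : ℝ) ^ k) * (y : ℝ) ^ k /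
      (q' * (1 + |β * w| * (2 ^ b0 * (y : ℝ) ^ k) * (y : ℝ) ^ k)) ≤
      3 * ((2 ^ b0 * (y : ℝ) ^ k * (y : ℝ) ^ k) * (d : ℝ) /
          (q * (1 + |β| * (2 ^ b0 * (y : ℝ) ^ K)))) := by
    rw [abs_mul, abs_of_pos hwR]
    have h1 : (q : ℝ) * (1 + |β| * (2 ^ b0 * (y : ℝ) ^ K)) ≤
        3 * d * (q' * (1 + |β| * w * (2 ^ b0 * (y : ℝ) ^ k) * (y : ℝ) ^ k)) := by
      rw [hqd, hyK]
      have h2 : |β| * (2 ^ b0 * ((y : ℝ) ^ (K - 2 * k) * ((y : ℝ) ^ k * (y : ℝ) ^ k))) ≤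
          3 * (|β| * w * (2 ^ b0 * (y : ℝ) ^ k) * (y : ℝ) ^ k) := by
        calc |β| * (2 ^ b0 * ((y : ℝ) ^ (K - 2 * k) * ((y : ℝ) ^ k * (y : ℝ) ^ k)))
            = (|β| * 2 ^ b0 * ((y : ℝ) ^ k * (y : ℝ) ^ k)) * (y : ℝ) ^ (K - 2 * k) := by ring
          _ ≤ (|β| * 2 ^ b0 * ((y : ℝ) ^ k * (y : ℝ) ^ k)) * (3 * w) :=
              mul_le_mul_of_nonneg_left hwge (by positivity)
          _ = _ := by ring
      calc (d : ℝ) * q' * (1 + |β| * (2 ^ b0 * ((y : ℝ) ^ (K - 2 * k) *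
            ((y : ℝ) ^ k * (y : ℝ) ^ k))))
          ≤ d * q' * (3 * (1 + |β| * w * (2 ^ b0 * (y : ℝ) ^ k) * (y : ℝ) ^ k)) :=
            mul_le_mul_of_nonneg_left (by linarith) (by positivity)
        _ = _ := by ring
    rw [← mul_div_assoc, div_le_div_iff₀ (by positivity) hden]
    calc 2 ^ b0 * (y : ℝ) ^ k * (y : ℝ) ^ k * (q * (1 + |β| * (2 ^ b0 * (y : ℝ) ^ K)))
        ≤ 2 ^ b0 * (y : ℝ) ^ k * (y : ℝ) ^ k *
          (3 * d * (q' * (1 + |β| * w * (2 ^ b0 * (y : ℝ) ^ k) * (y : ℝ) ^ k))) :=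
          mul_le_mul_of_nonneg_left h1 (by positivity)
      _ = _ := by ring
  have t2' : 4 * (1 + Real.log ((y : ℝ) ^ k)) * ((2 ^ b0 * (y : ℝ) ^ k) * (y : ℝ) ^ k /
      (q' * (1 + |β * w| * (2 ^ b0 * (y : ℝ) ^ k) * (y : ℝ) ^ k))) ≤
      4 * Λ * (3 * ((2 ^ b0 * (y : ℝ) ^ k * (y : ℝ) ^ k) * (d : ℝ) /
          (q * (1 + |β| * (2 ^ b0 * (y : ℝ) ^ K))))) := by
    refine mul_le_mul ?_ t2 (by positivity) (by positivity)
    linarith
  rw [← hd]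
  linarith

end HadC
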