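import Pool.Agent.Lib_MP_008adc_co.NTern0

/-!
# Counting lemma with `k` summands and a frozen set of frequencies; the relative eight summand lemma
-/

set_option autoImplicit false

namespace HadNT

private theorem norm_psiC (M : ℕ) [NeZero M] (x : ZMod M) : ‖(ZMod.stdAddChar x : ℂ)‖ = 1 := by
  rw [ZMod.stdAddChar_apply]
  exact Circle.norm_coe _

private theorem psi_sumC (M : ℕ) [NeZero M] {ι : Type} (s : Finset ι) (f : ι → ZMod M) :
    ∏ i ∈ s, (ZMod.stdAddChar (f i) : ℂ) = ZMod.stdAddChar (∑ i ∈ s, f i) := by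
  classical
  induction s using Finset.induction_on with
  | empty => simp
  | insert a s ha ih =>
    rw [Finset.prod_insert ha, Finset.sum_insert ha, ih, AddChar.map_add_eq_mul]

/-- expansion of the `k`-th power -/
private theorem Sg_powC (M : ℕ) [NeZero M] {τ : Type} (T : Finset τ) (g : τ → ZMod M) (k : ℕ)
    (h n : ZMod M) :
    Sg M T g h ^ k * (ZMod.stdAddChar (-(h * n)) : ℂ) =
      ∑ p ∈ Fintype.piFinset (fun _ : Fin k => T),
        (ZMod.stdAddChar (h * ((∑ j, g (p j)) - n)) : ℂ) := by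
  classical
  have h1 : Sg M T g h ^ k = ∏ _j : Fin k, ∑ t ∈ T, (ZMod.stdAddChar (h * g t) : ℂ) := by
    rw [Finset.prod_const, Finset.card_univ, Fintype.card_fin]
    rfl
  rw [h1, Finset.prod_univ_sum, Finset.sum_mul]
  refine Finset.sum_congr rfl fun p _ => ?_
  rw [psi_sumC, ← AddChar.map_add_eq_mul]
  congr 1
  rw [mul_sub, Finset.mul_sum, sub_eq_add_neg]

/-- the number of elements of additive order `2 ^ i` -/
theorem card_ordC (R i : ℕ) (A : Finset (ZMod (2 ^ R)))
    (hA : ∀ h ∈ A, addOrderOf h = 2 ^ i) : A.card ≤ 2 ^ i := by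
  classical
  have h1 : A ⊆ (Finset.univ : Finset (ZMod (2 ^ R))).filter (fun a => (2 ^ i) • a = 0) := by
    intro a ha
    rw [Finset.mem_filter]
    refine ⟨Finset.mem_univ _, ?_⟩
    rw [← hA a ha]
    exact addOrderOf_nsmul_eq_zero a
  exact (Finset.card_le_card h1).trans (IsAddCyclic.card_nsmul_eq_zero_le (by positivity))

/-- COUNTING LEMMA: `k` summands; on the set `F` of frequencies the terms are the full main terms,
the other frequencies contribute less. -/
theorem count_k (M : ℕ) [NeZero M] {τ : Type} (T : Finset τ) (g : τ → ZMod M) (k : ℕ)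
    (n : ZMod M) (F : Finset (ZMod M))
    (hF : ∀ h ∈ F, Sg M T g h ^ k * (ZMod.stdAddChar (-(h * n)) : ℂ) = (T.card : ℂ) ^ k)
    (hE : ∑ h ∈ Finset.univ \ F, ‖Sg M T g h‖ ^ k < F.card * (T.card : ℝ) ^ k) :
    ∃ t : Fin k → τ, (∀ j, t j ∈ T) ∧ ∑ j, g (t j) = n := by
  classical
  by_contra hcon
  push Not at hcon
  have hsum : ∑ h : ZMod M, Sg M T g h ^ k * (ZMod.stdAddChar (-(h * n)) : ℂ) = 0 := by
    rw [Finset.sum_congr rfl (fun h _ => Sg_powC M T g k h n),
      Finset.sum_comm, Finset.sum_congr rfl (fun p _ => orth M ((∑ j, g (p j)) - n))]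
    refine Finset.sum_eq_zero fun p hp => ?_
    rw [if_neg]
    intro h2
    exact hcon p (fun j => Fintype.mem_piFinset.1 hp j) (sub_eq_zero.1 h2)
  rw [← Finset.sum_sdiff (Finset.subset_univ F), Finset.sum_congr rfl hF, Finset.sum_const,
    nsmul_eq_mul] at hsum
  have h3 : (F.card : ℂ) * (T.card : ℂ) ^ k =
      -∑ h ∈ Finset.univ \ F, Sg M T g h ^ k * (ZMod.stdAddChar (-(h * n)) : ℂ) := by
    rw [eq_neg_iff_add_eq_zero, add_comm]
    exact hsum
  have h4 : ‖(F.card : ℂ) * (T.card : ℂ) ^ k‖ = F.card * (T.card : ℝ) ^ k := by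
    rw [norm_mul, norm_pow, Complex.norm_natCast, Complex.norm_natCast]
  have h5 : (F.card : ℝ) * (T.card : ℝ) ^ k ≤ ∑ h ∈ Finset.univ \ F, ‖Sg M T g h‖ ^ k := by
    rw [← h4, h3, norm_neg]
    refine (norm_sum_le _ _).trans (Finset.sum_le_sum fun h _ => ?_)
    rw [norm_mul, norm_psiC, mul_one, norm_pow]
  linarith

/-- RELATIVE EIGHT SUMMAND LEMMA: all `g t` are `1` modulo `2 ^ (s + 1)`. -/
theorem eight_rel (R s b : ℕ) (hb : 6 ≤ b) {τ : Type} (T : Finset τ) (hT : T.Nonempty)
    (g : τ → ℕ) (hfro : ∀ t ∈ T, g t ≡ 1 [MOD 2 ^ (s + 1)])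
    (h0 : ∀ h : ZMod (2 ^ R), ∀ i, s + 2 ≤ i → i ≤ s + b → addOrderOf h = 2 ^ i →
      Sg (2 ^ R) T (fun t => (g t : ZMod (2 ^ R))) h = 0)
    (h1 : ∀ h : ZMod (2 ^ R), ∀ i, s + b < i → i ≤ R → addOrderOf h = 2 ^ i →
      ‖Sg (2 ^ R) T (fun t => (g t : ZMod (2 ^ R))) h‖ * 2 ^ ((i - s) / 4) ≤ T.card)
    (y : ℕ) (hy : y ≡ 8 [MOD 2 ^ (s + 1)]) :
    ∃ t : Fin 8 → τ, (∀ j, t j ∈ T) ∧ (∑ j, g (t j)) ≡ y [MOD 2 ^ R] := by
  classical
  have hTc : (0 : ℝ) < (T.card : ℝ) ^ 8 := by
    have := Finset.card_pos.2 hT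
    positivity
  rcases Nat.lt_or_ge (s + 1) R with hR | hR
  swap
  · -- everything is frozen
    obtain ⟨t, ht⟩ := hT
    refine ⟨fun _ => t, fun _ => ht, ?_⟩
    have h2 : 2 ^ R ∣ 2 ^ (s + 1) := pow_dvd_pow 2 hR
    have h3 : ∑ _j : Fin 8, g t ≡ 8 [MOD 2 ^ R] := by
      rw [Finset.sum_const, Finset.card_univ, Fintype.card_fin, smul_eq_mul]
      exact ((hfro t ht).of_dvd h2).mul_left 8
    exact h3.trans ((hy.of_dvd h2).symm)
  · set G : τ → ZMod (2 ^ R) := fun t => (g t : ZMod (2 ^ R)) with hG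
    set F : Finset (ZMod (2 ^ R)) :=
      (Finset.univ : Finset (ZMod (2 ^ R))).filter (fun h => h * ((2 ^ (s + 1) : ℕ) : ZMod (2 ^ R)) = 0)
      with hFdef
    have hfreeze : ∀ h ∈ F, ∀ m m' : ℕ, m ≡ m' [MOD 2 ^ (s + 1)] →
        h * (m : ZMod (2 ^ R)) = h * (m' : ZMod (2 ^ R)) := by
      intro h hh m m' hm
      rw [hFdef, Finset.mem_filter] at hh
      have h2 : ∀ a : ℕ, h * (a : ZMod (2 ^ R)) = h * ((a % 2 ^ (s + 1) : ℕ) : ZMod (2 ^ R)) := by
        intro a
        conv_lhs => rw [← Nat.div_add_mod a (2 ^ (s + 1))]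
        rw [Nat.cast_add, Nat.cast_mul, mul_add, ← mul_assoc, hh.2, zero_mul, zero_add]
      rw [h2 m, h2 m', hm]
    have hFcard : (2 : ℝ) ^ (s + 1) ≤ F.card := by
      have h2 : (Finset.range (2 ^ (s + 1))).card ≤ F.card := by
        refine Finset.card_le_card_of_injOn
          (fun j => ((2 ^ (R - (s + 1)) * j : ℕ) : ZMod (2 ^ R))) ?_ ?_
        · intro j _
          rw [hFdef, Finset.mem_coe, Finset.mem_filter]
          refine ⟨Finset.mem_univ _, ?_⟩
          rw [← Nat.cast_mul, ZMod.natCast_eq_zero_iff]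
          refine ⟨j, ?_⟩
          have e1 : 2 ^ R = 2 ^ (R - (s + 1)) * 2 ^ (s + 1) := by
            rw [← pow_add]
            congr 1
            omega
          rw [e1]
          ring
        · intro i hi j hj hij
          rw [Finset.mem_coe, Finset.mem_range] at hi hj
          have e1 : 2 ^ R = 2 ^ (R - (s + 1)) * 2 ^ (s + 1) := by
            rw [← pow_add]
            congr 1
            omega
          have h3 : ((2 ^ (R - (s + 1)) * i : ℕ) : ZMod (2 ^ R)) =
              ((2 ^ (R - (s + 1)) * j : ℕ) : ZMod (2 ^ R)) := hij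
          rw [ZMod.natCast_eq_natCast_iff'] at h3
          have h4 : ∀ a, a < 2 ^ (s + 1) → 2 ^ (R - (s + 1)) * a < 2 ^ R := by
            intro a ha
            rw [e1]
            exact Nat.mul_lt_mul_of_pos_left ha (by positivity)
          rw [Nat.mod_eq_of_lt (h4 i hi), Nat.mod_eq_of_lt (h4 j hj)] at h3
          exact Nat.eq_of_mul_eq_mul_left (by positivity) h3
      rw [Finset.card_range] at h2
      exact_mod_cast h2
    have key := count_k (2 ^ R) T G 8 (y : ZMod (2 ^ R)) F ?_ ?_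
    · obtain ⟨t, ht, ht2⟩ := key
      refine ⟨t, ht, ?_⟩
      rw [← ZMod.natCast_eq_natCast_iff]
      push_cast
      exact ht2
    · -- the main terms
      intro h hh
      have h2 : Sg (2 ^ R) T G h = (T.card : ℂ) * (ZMod.stdAddChar h : ℂ) := by
        show ∑ t ∈ T, (ZMod.stdAddChar (h * G t) : ℂ) = _
        rw [Finset.sum_congr rfl (g := fun _ => (ZMod.stdAddChar h : ℂ)), Finset.sum_const,
          nsmul_eq_mul]
        intro t ht
        congr 1
        have h3 := hfreeze h hh (g t) 1 (hfro t ht)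
        rw [Nat.cast_one, mul_one] at h3
        exact h3
      have h3 := hfreeze h hh y 8 hy
      rw [h2, h3, mul_pow, mul_assoc]
      have h4 : (ZMod.stdAddChar h : ℂ) ^ 8 * (ZMod.stdAddChar (-(h * ((8 : ℕ) : ZMod (2 ^ R)))) : ℂ)
          = 1 := by
        rw [← AddChar.map_nsmul_eq_pow, ← AddChar.map_add_eq_mul]
        have e1 : (8 : ℕ) • h + -(h * ((8 : ℕ) : ZMod (2 ^ R))) = 0 := by
          rw [nsmul_eq_mul]
          ring
        rw [e1, AddChar.map_zero_eq_one]
      rw [h4, mul_one]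
    · -- the error terms
      set A : Finset (ZMod (2 ^ R)) := Finset.univ \ F with hA
      have hord : ∀ h ∈ A, ∃ i, s + 2 ≤ i ∧ i ≤ R ∧ addOrderOf h = 2 ^ i := by
        intro h hh
        rw [hA, Finset.mem_sdiff] at hh
        have h2 : addOrderOf h ∣ 2 ^ R := by
          have := addOrderOf_dvd_natCard h
          rwa [Nat.card_zmod] at this
        obtain ⟨i, hi, hi2⟩ := (Nat.dvd_prime_pow Nat.prime_two).1 h2
        refine ⟨i, ?_, hi, hi2⟩
        by_contra hlt
        have h3 : addOrderOf h ∣ 2 ^ (s + 1) := by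
          rw [hi2]
          exact pow_dvd_pow 2 (by omega)
        refine hh.2 ?_
        rw [hFdef, Finset.mem_filter]
        refine ⟨Finset.mem_univ _, ?_⟩
        have := addOrderOf_dvd_iff_nsmul_eq_zero.1 h3
        rw [nsmul_eq_mul, mul_comm] at this
        exact this
      have hbound : ∑ h ∈ A, ‖Sg (2 ^ R) T G h‖ ^ 8 ≤ 2 ^ s * (T.card : ℝ) ^ 8 := by
        set A' := A.filter (fun h => s + b < Nat.log 2 (addOrderOf h)) with hA'
        have hlog : ∀ h : ZMod (2 ^ R), ∀ i, addOrderOf h = 2 ^ i →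
            Nat.log 2 (addOrderOf h) = i := by
          intro h i hi
          rw [hi, Nat.log_pow (by norm_num)]
        have e3 : ∑ h ∈ A, ‖Sg (2 ^ R) T G h‖ ^ 8 = ∑ h ∈ A', ‖Sg (2 ^ R) T G h‖ ^ 8 := by
          symm
          refine Finset.sum_subset (Finset.filter_subset _ _) fun h hh hh' => ?_
          obtain ⟨i, hi2, _, hi⟩ := hord h hh
          have h6 : ¬ s + b < i := by
            intro h7
            exact hh' (Finset.mem_filter.2 ⟨hh, by rw [hlog h i hi]; exact h7⟩)
          have h7 : Sg (2 ^ R) T G h = 0 := h0 h i hi2 (by omega) hi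
          rw [h7, norm_zero]
          norm_num
        rw [e3, ← Finset.sum_fiberwise_of_maps_to (s := A') (t := Finset.Ico (s + b + 1) (R + 1))
          (g := fun h => Nat.log 2 (addOrderOf h))]
        · have e4 : ∀ i ∈ Finset.Ico (s + b + 1) (R + 1),
              ∑ h ∈ A' with Nat.log 2 (addOrderOf h) = i, ‖Sg (2 ^ R) T G h‖ ^ 8 ≤
                (T.card : ℝ) ^ 8 * (64 * 2 ^ (2 * s) * (1 / 2 : ℝ) ^ i) := by
            intro i hi
            rw [Finset.mem_Ico] at hi
            have e5 : ∀ h ∈ A'.filter (fun h => Nat.log 2 (addOrderOf h) = i),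
                addOrderOf h = 2 ^ i := by
              intro h hh
              rw [Finset.mem_filter] at hh
              obtain ⟨i', _, _, hi'⟩ := hord h (Finset.mem_filter.1 hh.1).1
              rw [hlog h i' hi'] at hh
              rw [hi', hh.2]
            have e6 : ∀ h ∈ A'.filter (fun h => Nat.log 2 (addOrderOf h) = i),
                ‖Sg (2 ^ R) T G h‖ ^ 8 ≤ (T.card : ℝ) ^ 8 / 2 ^ (8 * ((i - s) / 4)) := by
              intro h hh
              have e7 := h1 h i (by omega) (by omega) (e5 h hh)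
              rw [le_div_iff₀ (by positivity)]
              calc ‖Sg (2 ^ R) T G h‖ ^ 8 * 2 ^ (8 * ((i - s) / 4)) =
                    (‖Sg (2 ^ R) T G h‖ * 2 ^ ((i - s) / 4)) ^ 8 := by
                    rw [mul_pow, ← pow_mul, mul_comm ((i - s) / 4)]
                _ ≤ (T.card : ℝ) ^ 8 := pow_le_pow_left₀ (by positivity) e7 8
            have e8 : ((A'.filter (fun h => Nat.log 2 (addOrderOf h) = i)).card : ℝ) ≤ 2 ^ i := by
              exact_mod_cast card_ordC R i _ e5
            calc ∑ h ∈ A' with Nat.log 2 (addOrderOf h) = i, ‖Sg (2 ^ R) T G h‖ ^ 8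
                ≤ ((A'.filter (fun h => Nat.log 2 (addOrderOf h) = i)).card : ℝ) *
                  ((T.card : ℝ) ^ 8 / 2 ^ (8 * ((i - s) / 4))) := by
                  rw [← nsmul_eq_mul]
                  exact Finset.sum_le_card_nsmul _ _ _ e6
              _ ≤ 2 ^ i * ((T.card : ℝ) ^ 8 / 2 ^ (8 * ((i - s) / 4))) :=
                  mul_le_mul_of_nonneg_right e8 (by positivity)
              _ ≤ (T.card : ℝ) ^ 8 * (64 * 2 ^ (2 * s) * (1 / 2 : ℝ) ^ i) := by
                  have e9 : (2 : ℝ) ^ i * 2 ^ i ≤ 64 * 2 ^ (2 * s) * 2 ^ (8 * ((i - s) / 4)) := by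
                    have : (2 : ℝ) ^ i * 2 ^ i ≤ 2 ^ 6 * 2 ^ (2 * s) * 2 ^ (8 * ((i - s) / 4)) := by
                      rw [← pow_add, ← pow_add, ← pow_add]
                      exact pow_le_pow_right₀ (by norm_num) (by omega)
                    calc (2 : ℝ) ^ i * 2 ^ i ≤ 2 ^ 6 * 2 ^ (2 * s) * 2 ^ (8 * ((i - s) / 4)) := this
                      _ = 64 * 2 ^ (2 * s) * 2 ^ (8 * ((i - s) / 4)) := by norm_num
                  have e10 : (1 / 2 : ℝ) ^ i = 1 / 2 ^ i := by rw [div_pow, one_pow]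
                  rw [e10, mul_div_assoc', mul_one_div, mul_div_assoc', mul_comm ((2 : ℝ) ^ i),
                    div_le_div_iff₀ (by positivity) (by positivity)]
                  calc (T.card : ℝ) ^ 8 * 2 ^ i * 2 ^ i = (T.card : ℝ) ^ 8 * (2 ^ i * 2 ^ i) := by
                        ring
                    _ ≤ (T.card : ℝ) ^ 8 * (64 * 2 ^ (2 * s) * 2 ^ (8 * ((i - s) / 4))) :=
                        mul_le_mul_of_nonneg_left e9 hTc.le
                    _ = (T.card : ℝ) ^ 8 * (64 * 2 ^ (2 * s)) * 2 ^ (8 * ((i - s) / 4)) := by ring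
          calc _ ≤ ∑ i ∈ Finset.Ico (s + b + 1) (R + 1),
                (T.card : ℝ) ^ 8 * (64 * 2 ^ (2 * s) * (1 / 2 : ℝ) ^ i) :=
                Finset.sum_le_sum e4
            _ = (T.card : ℝ) ^ 8 *
                (64 * 2 ^ (2 * s) * ∑ i ∈ Finset.Ico (s + b + 1) (R + 1), (1 / 2 : ℝ) ^ i) := by
                rw [Finset.mul_sum, Finset.mul_sum]
            _ ≤ (T.card : ℝ) ^ 8 * (64 * 2 ^ (2 * s) * (1 / 2 : ℝ) ^ (s + b)) := by
                refine mul_le_mul_of_nonneg_left (mul_le_mul_of_nonneg_left ?_ (by positivity))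
                  hTc.le
                have := geom_sum_Ico_le_of_lt_one (x := (1 / 2 : ℝ)) (m := s + b + 1) (n := R + 1)
                  (by norm_num) (by norm_num)
                refine this.trans (le_of_eq ?_)
                rw [pow_succ]
                ring
            _ ≤ (T.card : ℝ) ^ 8 * 2 ^ s := by
                refine mul_le_mul_of_nonneg_left ?_ hTc.le
                have e11 : 64 * (1 / 2 : ℝ) ^ b ≤ 1 := by
                  calc 64 * (1 / 2 : ℝ) ^ b ≤ 64 * (1 / 2 : ℝ) ^ 6 :=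
                      mul_le_mul_of_nonneg_left
                        (pow_le_pow_of_le_one (by norm_num) (by norm_num) hb) (by norm_num)
                    _ = 1 := by norm_num
                have e12 : (2 : ℝ) ^ s * (1 / 2 : ℝ) ^ s = 1 := by
                  rw [← mul_pow]
                  norm_num
                calc 64 * (2 : ℝ) ^ (2 * s) * (1 / 2 : ℝ) ^ (s + b) =
                      2 ^ s * ((2 : ℝ) ^ s * (1 / 2 : ℝ) ^ s) * (64 * (1 / 2 : ℝ) ^ b) := by
                      rw [pow_add, two_mul, pow_add]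
                      ring
                  _ ≤ 2 ^ s * 1 * 1 := by
                      rw [e12]
                      exact mul_le_mul_of_nonneg_left e11 (by positivity)
                  _ = 2 ^ s := by ring
            _ = 2 ^ s * (T.card : ℝ) ^ 8 := mul_comm _ _
        · intro h hh
          rw [hA', Finset.mem_filter] at hh
          obtain ⟨i, hi2, hiR, hi⟩ := hord h hh.1
          rw [Finset.mem_Ico]
          rw [hlog h i hi] at hh ⊢
          omega
      refine lt_of_le_of_lt hbound ?_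
      have h5 : (2 : ℝ) ^ s < F.card := by
        refine lt_of_lt_of_le ?_ hFcard
        rw [pow_succ]
        have : (0 : ℝ) < 2 ^ s := by positivity
        linarith
      exact mul_lt_mul_of_pos_right h5 hTc

end HadNT
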