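import Pool.Agent.Lib_MP_008adc_c3.GcdAv
import Pool.Agent.Lib_MP_008adc_c3.PSets

/-!
# Products of one prime from each of several disjoint sets
-/

set_option autoImplicit false

namespace HadC

open Finset

/-- products of one element from each of `P m, ..., P (m + l - 1)` -/
def PP (P : ℕ → Finset ℕ) (m : ℕ) : ℕ → Finset ℕ
  | 0 => {1}
  | l + 1 => (PP P m l ×ˢ P (m + l)).image (fun x => x.1 * x.2)

/-- the prime data -/
structure PD (b g y K : ℕ) (P : ℕ → Finset ℕ) : Prop where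
  hdis : ∀ i j, i ≠ j → Disjoint (P i) (P j)
  hpr : ∀ j, ∀ p ∈ P j, p.Prime
  hyp : ∀ j, ∀ p ∈ P j, y ≤ p + 2 ^ (b - g)
  hlt : ∀ j, ∀ p ∈ P j, p < y
  hge : ∀ j, ∀ p ∈ P j, 2 ^ (b - g) ≤ p
  hc : ∀ j < K, (P j).card = 2 ^ (b - 2 * g)
  hy : y ≤ 2 ^ b
  hy2 : (K + 1) * 2 ^ (b - g) ≤ y
  hgb : 2 * g ≤ b
  hbg : 2 ≤ b - g
  hK : 1 ≤ K

variable {b g y K : ℕ} {P : ℕ → Finset ℕ}

theorem PP_zero (m : ℕ) : PP P m 0 = {1} := rfl

theorem PP_succ (m l : ℕ) :
    PP P m (l + 1) = (PP P m l ×ˢ P (m + l)).image (fun x => x.1 * x.2) := rfl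

theorem mem_PP_succ {m l t : ℕ} (ht : t ∈ PP P m (l + 1)) :
    ∃ u ∈ PP P m l, ∃ p ∈ P (m + l), t = u * p := by
  rw [PP_succ, mem_image] at ht
  obtain ⟨x, hx, rfl⟩ := ht
  rw [mem_product] at hx
  exact ⟨x.1, hx.1, x.2, hx.2, rfl⟩

theorem PP_pos (H : PD b g y K P) {m l t : ℕ} (ht : t ∈ PP P m l) : 0 < t := by
  induction l generalizing t with
  | zero =>
    rw [PP_zero, mem_singleton] at ht
    omega
  | succ l ih =>
    obtain ⟨u, hu, p, hp, rfl⟩ := mem_PP_succ ht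
    exact Nat.mul_pos (ih hu) (H.hpr _ p hp).pos

theorem PP_le (H : PD b g y K P) {m l t : ℕ} (ht : t ∈ PP P m l) : t ≤ y ^ l := by
  induction l generalizing t with
  | zero =>
    rw [PP_zero, mem_singleton] at ht
    rw [ht, pow_zero]
  | succ l ih =>
    obtain ⟨u, hu, p, hp, rfl⟩ := mem_PP_succ ht
    rw [pow_succ]
    exact Nat.mul_le_mul (ih hu) (H.hlt _ p hp).le

theorem PP_lt (H : PD b g y K P) {m l t : ℕ} (hl : 1 ≤ l) (ht : t ∈ PP P m l) : t < y ^ l := by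
  obtain ⟨l, rfl⟩ := Nat.exists_eq_add_of_le' hl
  obtain ⟨u, hu, p, hp, rfl⟩ := mem_PP_succ ht
  rw [pow_succ]
  have h1 := PP_le H hu
  have h2 := H.hlt _ p hp
  have h3 := PP_pos H hu
  calc u * p < u * y := Nat.mul_lt_mul_of_pos_left h2 h3
    _ ≤ y ^ l * y := Nat.mul_le_mul_right _ h1

/-- the lower bound, in the form `K ^ l y ^ l ≤ (K + 1) ^ l t` -/
theorem PP_ge (H : PD b g y K P) {m l t : ℕ} (ht : t ∈ PP P m l) :
    K ^ l * y ^ l ≤ (K + 1) ^ l * t := by
  induction l generalizing t with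
  | zero =>
    rw [PP_zero, mem_singleton] at ht
    rw [ht]
    simp
  | succ l ih =>
    obtain ⟨u, hu, p, hp, rfl⟩ := mem_PP_succ ht
    have h1 := ih hu
    have h2 := H.hyp _ p hp
    have h3 := H.hy2
    have h4 : K * y ≤ (K + 1) * p := by nlinarith
    calc K ^ (l + 1) * y ^ (l + 1) = (K ^ l * y ^ l) * (K * y) := by ring
      _ ≤ ((K + 1) ^ l * u) * ((K + 1) * p) := Nat.mul_le_mul h1 h4
      _ = (K + 1) ^ (l + 1) * (u * p) := by ring

theorem PP_ge3 (H : PD b g y K P) {m l t : ℕ} (hl : l ≤ K) (ht : t ∈ PP P m l) :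
    y ^ l ≤ 3 * t := by
  have h1 := PP_ge H ht
  have hK : (0 : ℝ) < K := by
    have := H.hK
    exact_mod_cast (show 0 < K by omega)
  have h2 : ((K : ℝ) + 1) ^ l ≤ 3 * (K : ℝ) ^ l := by
    have h3 : ((K : ℝ) + 1) ^ l = (K : ℝ) ^ l * (1 + 1 / K) ^ l := by
      rw [← mul_pow]
      congr 1
      field_simp
    have h4 : (1 + 1 / (K : ℝ)) ^ l ≤ 3 := by
      have h5 : 1 + 1 / (K : ℝ) ≤ Real.exp (1 / K) := by
        have := Real.add_one_le_exp (1 / (K : ℝ))
        linarith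
      calc (1 + 1 / (K : ℝ)) ^ l ≤ (Real.exp (1 / K)) ^ l :=
            pow_le_pow_left₀ (by positivity) h5 l
        _ = Real.exp (l * (1 / K)) := (Real.exp_nat_mul _ _).symm
        _ ≤ Real.exp 1 := by
            apply Real.exp_le_exp.2
            rw [mul_one_div, div_le_one hK]
            exact_mod_cast hl
        _ ≤ 3 := by
            have := Real.exp_one_lt_d9
            linarith
    rw [h3]
    have h6 : (0 : ℝ) ≤ (K : ℝ) ^ l := by positivity
    nlinarith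
  have h7 : (K : ℝ) ^ l * (y : ℝ) ^ l ≤ (K : ℝ) ^ l * (3 * t) := by
    have h8 : ((K ^ l * y ^ l : ℕ) : ℝ) ≤ (((K + 1) ^ l * t : ℕ) : ℝ) := by exact_mod_cast h1
    push_cast at h8
    have h9 : ((K : ℝ) + 1) ^ l * t ≤ 3 * (K : ℝ) ^ l * t :=
      mul_le_mul_of_nonneg_right h2 (Nat.cast_nonneg t)
    linarith
  have h10 : (y : ℝ) ^ l ≤ 3 * t := le_of_mul_le_mul_left h7 (by positivity)
  exact_mod_cast h10

theorem PP_prime (H : PD b g y K P) {m l t : ℕ} (ht : t ∈ PP P m l) {p : ℕ} (hp : p.Prime)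
    (hpt : p ∣ t) : ∃ j, m ≤ j ∧ j < m + l ∧ p ∈ P j := by
  induction l generalizing t with
  | zero =>
    rw [PP_zero, mem_singleton] at ht
    rw [ht] at hpt
    exact absurd (Nat.dvd_one.1 hpt) hp.ne_one
  | succ l ih =>
    obtain ⟨u, hu, r, hr, rfl⟩ := mem_PP_succ ht
    rcases (hp.dvd_mul).1 hpt with h1 | h1
    · obtain ⟨j, h2, h3, h4⟩ := ih hu h1
      exact ⟨j, h2, by omega, h4⟩
    · have h2 := (Nat.prime_dvd_prime_iff_eq hp (H.hpr _ r hr)).1 h1
      exact ⟨m + l, by omega, by omega, by rw [h2]; exact hr⟩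

theorem PP_coprime_prime (H : PD b g y K P) {m l u p : ℕ} (hu : u ∈ PP P m l)
    (hp : p ∈ P (m + l)) : Nat.Coprime u p := by
  rw [Nat.coprime_comm, (H.hpr _ p hp).coprime_iff_not_dvd]
  intro h1
  obtain ⟨j, _, h3, h4⟩ := PP_prime H hu (H.hpr _ p hp) h1
  exact Finset.disjoint_left.1 (H.hdis j (m + l) (by omega)) h4 hp

theorem PP_inj (H : PD b g y K P) (m l : ℕ) :
    Set.InjOn (fun x : ℕ × ℕ => x.1 * x.2) (PP P m l ×ˢ P (m + l) : Finset (ℕ × ℕ)) := by
  rintro ⟨u, p⟩ hx ⟨u', p'⟩ hx' he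
  rw [mem_coe, mem_product] at hx hx'
  have he' : u * p = u' * p' := he
  have h1 : p ∣ u' * p' := ⟨u, by rw [← he']; ring⟩
  have h2 : p ∣ p' := ((PP_coprime_prime H hx'.1 hx.2).symm).dvd_of_dvd_mul_left h1
  have h3 := (Nat.prime_dvd_prime_iff_eq (H.hpr _ p hx.2) (H.hpr _ p' hx'.2)).1 h2
  have h4 : u = u' := by
    rw [← h3] at he'
    exact Nat.eq_of_mul_eq_mul_right (H.hpr _ p hx.2).pos he'
  rw [h3, h4]

theorem sum_PP_succ (H : PD b g y K P) {M : Type} [AddCommMonoid M] (m l : ℕ) (F : ℕ → M) :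
    ∑ t ∈ PP P m (l + 1), F t = ∑ u ∈ PP P m l, ∑ p ∈ P (m + l), F (u * p) := by
  rw [PP_succ, sum_image (PP_inj H m l), sum_product]

theorem sum_PP_add (H : PD b g y K P) {M : Type} [AddCommMonoid M] (m l l' : ℕ) (F : ℕ → M) :
    ∑ t ∈ PP P m (l + l'), F t = ∑ u ∈ PP P m l, ∑ v ∈ PP P (m + l) l', F (u * v) := by
  induction l' generalizing F with
  | zero =>
    rw [add_zero]
    refine sum_congr rfl fun u _ => ?_
    rw [PP_zero, sum_singleton, mul_one]
  | succ l' ih =>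
    rw [← add_assoc, sum_PP_succ H, ih]
    refine sum_congr rfl fun u _ => ?_
    rw [sum_PP_succ H]
    refine sum_congr rfl fun v _ => ?_
    rw [add_assoc m l l']
    refine sum_congr rfl fun p _ => ?_
    rw [mul_assoc]

theorem card_PP (H : PD b g y K P) (m l : ℕ) (hl : m + l ≤ K) :
    (PP P m l).card = 2 ^ ((b - 2 * g) * l) := by
  induction l with
  | zero => simp [PP_zero]
  | succ l ih =>
    rw [card_eq_sum_ones, sum_PP_succ H m l (fun _ => 1)]
    simp only [sum_const, smul_eq_mul, mul_one]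
    rw [ih (by omega), H.hc (m + l) (by omega), ← pow_add]
    congr 1

theorem PP_nonempty (H : PD b g y K P) (m l : ℕ) (hl : m + l ≤ K) : (PP P m l).Nonempty := by
  rw [← card_pos, card_PP H m l hl]
  positivity

theorem PP_odd (H : PD b g y K P) {m l t : ℕ} (ht : t ∈ PP P m l) : t % 2 = 1 := by
  rcases Nat.mod_two_eq_zero_or_one t with h1 | h1
  · exfalso
    obtain ⟨j, _, _, h4⟩ := PP_prime H ht Nat.prime_two (Nat.dvd_of_mod_eq_zero h1)
    have h5 := H.hge j 2 h4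
    have h6 : 2 ^ 2 ≤ 2 ^ (b - g) := Nat.pow_le_pow_right (by norm_num) H.hbg
    omega
  · exact h1

/-- number of primes of the sets that divide `q` -/
def nuq (P : ℕ → Finset ℕ) (q m l : ℕ) : ℕ :=
  ∑ j : Fin l, ((P (m + j)).filter (fun p => p ∣ q)).card

theorem sum_gcd_PP (H : PD b g y K P) (q m l : ℕ) (hl : m + l ≤ K) :
    ∑ w ∈ PP P m l, Nat.gcd q w ≤ (PP P m l).card * 2 ^ ((2 * g + 1) * nuq P q m l) := by
  induction l with
  | zero => simp [PP_zero, nuq]
  | succ l ih =>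
    have h1 : ∑ w ∈ PP P m (l + 1), Nat.gcd q w =
        (∑ u ∈ PP P m l, Nat.gcd q u) * ∑ p ∈ P (m + l), Nat.gcd q p := by
      rw [sum_PP_succ H, sum_mul]
      refine sum_congr rfl fun u hu => ?_
      rw [mul_sum]
      refine sum_congr rfl fun p hp => ?_
      exact Nat.Coprime.gcd_mul q (PP_coprime_prime H hu hp)
    have h2 : ∑ p ∈ P (m + l), Nat.gcd q p ≤
        (P (m + l)).card * 2 ^ ((2 * g + 1) * ((P (m + l)).filter (fun p => p ∣ q)).card) := by
      refine (Pool.Agent.HadNT.sum_gcd_le (b := b) (P (m + l)) (H.hpr _)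
        (fun p hp => (H.hlt _ p hp).le.trans H.hy)).trans ?_
      set n := ((P (m + l)).filter (fun p => p ∣ q)).card
      have h3 : 2 ^ b = (P (m + l)).card * 2 ^ (2 * g) := by
        rw [H.hc _ (by omega), ← pow_add]
        congr 1
        have := H.hgb
        omega
      rw [h3]
      calc (P (m + l)).card + (P (m + l)).card * 2 ^ (2 * g) * n
          = (P (m + l)).card * (1 + 2 ^ (2 * g) * n) := by ring
        _ ≤ (P (m + l)).card * 2 ^ ((2 * g + 1) * n) :=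
            Nat.mul_le_mul_left _ (Pool.Agent.HadNT.one_add_mul_le_pow (2 * g) n)
    have h4 : nuq P q m (l + 1) = nuq P q m l + ((P (m + l)).filter (fun p => p ∣ q)).card := by
      unfold nuq
      rw [Fin.sum_univ_castSucc]
      rfl
    have h5 : (PP P m (l + 1)).card = (PP P m l).card * (P (m + l)).card := by
      rw [card_PP H m (l + 1) hl, card_PP H m l (by omega), H.hc _ (by omega), ← pow_add]
      congr 1
    rw [h1, h4, h5]
    calc _ ≤ ((PP P m l).card * 2 ^ ((2 * g + 1) * nuq P q m l)) *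
          ((P (m + l)).card * 2 ^ ((2 * g + 1) * ((P (m + l)).filter (fun p => p ∣ q)).card)) :=
          Nat.mul_le_mul (ih (by omega)) h2
      _ = _ := by
          rw [mul_add, pow_add]
          ring

theorem pow_nuq_le (H : PD b g y K P) {q : ℕ} (hq : q ≠ 0) (m l : ℕ) :
    2 ^ ((b - g) * nuq P q m l) ≤ q := by
  rw [pow_mul]
  refine Pool.Agent.HadNT.pow_card_primes_le hq (fun j : Fin l => P (m + j)) (fun i => H.hpr _) ?_
    (fun i => H.hge _)
  intro i j hij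
  refine H.hdis _ _ ?_
  intro h1
  exact hij (Fin.ext (by omega))

end HadC
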